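import Pool.Agent.LRN.StmtsB
import Pool.Agent.LRG.StmtsE

/-!
# Squad LRY: Leopoldt's conjecture for 100 percent of all number fields of degree at most 8

THEOREM Y. Let `(r₁, r₂)` be a signature, `r₁ + r₂ ≥ 3`, `n = r₁ + 2 r₂`, and `F(X) = SizeFlds r₁ r₂ X`
(squad LRN). (Y1) `#F(X) ≥ X ^ ((n + 1) / 2 - ε)` for large `X`. (Y2) At most `C X ^ (n / 2 + ε)` fields
`K` in `F(X)` violate Leopoldt's conjecture at `p` while all subfields of `K` of index at least `3` and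
unit rank at least `2` satisfy it at `p`. If `n ≤ 8`, or `n` is prime or twice a prime, there are no
such subfields, and the theorem is about all fields of the signature.

PROOF. Block U: a bad field contains one of `C X ^ ε` sources `E` (squad LRN), here of index `1` or
`2`; a field `K` in `F(X)` of index `2` over `E` is `E(u)`, `u ^ 2 - a u + b = 0`, with at most
`(14 X) ^ (n / 2)` integers `a` and `C (1 + log X) ^ n` units `b` of `E`. Block L: the family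
`G = ∏ (X - a_k) ∏ (X ^ 2 - 2 a_k X + a_k ^ 2 + c_j)`, `f = G - 1`, with all parameters free.

DELIVER: `Pool/Agent/HelperNN_LRY/XXX.lean`, `import Pool.Agent.LRY.Stmts`, namespace
`Pool.Agent.LRY.HNN`, `open Pool.Agent.LRY Pool.Agent.LRG.E`,
`theorem xxx (hypotheses = the statements in uses, in this order) : XxxStmt`. Landed theorems of the
squads LRG, LRN, LRS may be imported and used. Most rows of block L are adaptations of landed rows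
of `LRG/StmtsE.lean` (table lrg): FCT SPC IRE ROO EMB PLA UNT FFE.
-/

set_option autoImplicit false

open Polynomial NumberField
open Pool.Agent.Helper85_Leo (LeopoldtAt)
open Pool.Agent.LRG Pool.Agent.LRN
open Pool.Agent.LRG.E (Ro Fa fac st rep mu ex)

namespace Pool.Agent.LRY

/-! ### Definitions -/

/-- The number fields inside `ℂ` for which Leopoldt's conjecture fails at `p`, while it holds at `p`
for all subfields of index at least `3` and unit rank at least `2`. -/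
def BadY (p : ℕ) [Fact p.Prime] : Set (IntermediateField ℚ ℂ) :=
  {K | ∃ _ : NumberField K, ¬ LeopoldtAt K p ∧
    ∀ E : IntermediateField ℚ K, 3 ≤ Module.finrank E K → 2 ≤ Units.rank E → LeopoldtAt E p}

/-- The quadratic extensions `K` of `E` inside `ℂ` which contain a unit outside `E` with all
conjugates at most `X`. -/
def Over (E : IntermediateField ℚ ℂ) (X : ℝ) : Set (IntermediateField ℚ ℂ) :=
  {K | E ≤ K ∧ ∃ _ : NumberField K, Module.finrank ℚ K = 2 * Module.finrank ℚ E ∧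
    ∃ u : (𝓞 K)ˣ, (((u : 𝓞 K) : K) : ℂ) ∉ E ∧ ∀ σ : K →+* ℂ, ‖σ ((u : 𝓞 K) : K)‖ ≤ X}

/-- Admissible parameters of size `N`. `a k` is the root of the linear factor `k`, respectively the
real part of the roots of the quadratic factor `k`; `c j` is the square of the imaginary part of the
roots of the quadratic factor `j`. -/
structure Par (r₁ r₂ N : ℕ) (a : Fa r₁ r₂ → ℤ) (c : Fin r₂ → ℤ) : Prop where
  alo : ∀ k, 3 * (ex k : ℤ) * (N : ℤ) ≤ a k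
  ahi : ∀ k, a k ≤ (3 * (ex k : ℤ) + 1) * (N : ℤ)
  clo : ∀ j, (N : ℤ) ^ 2 ≤ c j
  chi : ∀ j, c j ≤ 4 * (N : ℤ) ^ 2

/-- Normalised parameters: `a k = 0` for the first factor if `r₁ > 0`; `a k = 0, 3 N` for the first
two factors if `r₁ = 0`. -/
def Nrm (r₁ r₂ N : ℕ) (a : Fa r₁ r₂ → ℤ) : Prop :=
  (0 < r₁ → ∀ k, ex k = 0 → a k = 0) ∧
  (r₁ = 0 → ∀ k, ex k ≤ 1 → a k = 3 * (ex k : ℤ) * (N : ℤ))

/-- The roots of `G`. -/
noncomputable def wr {r₁ r₂ : ℕ} (a : Fa r₁ r₂ → ℤ) (c : Fin r₂ → ℤ) : Ro r₁ r₂ → ℂ :=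
  Sum.elim (fun i => (a (Sum.inl i) : ℂ)) fun q =>
    (a (Sum.inr q.1) : ℂ) + (if q.2 then 1 else -1) * ((Real.sqrt (c q.1 : ℝ) : ℝ) : ℂ) * Complex.I

/-- The factors of `G`. -/
noncomputable def gq {r₁ r₂ : ℕ} (a : Fa r₁ r₂ → ℤ) (c : Fin r₂ → ℤ) : Fa r₁ r₂ → ℤ[X] :=
  Sum.elim (fun i => X - C (a (Sum.inl i)))
    fun j => X ^ 2 - C (2 * a (Sum.inr j)) * X + C (a (Sum.inr j) ^ 2 + c j)

/-- The polynomial `G`. -/
noncomputable def Gq {r₁ r₂ : ℕ} (a : Fa r₁ r₂ → ℤ) (c : Fin r₂ → ℤ) : ℤ[X] :=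
  ∏ k : Fa r₁ r₂, gq a c k

/-- A constant. -/
def bq (r₁ r₂ : ℕ) : ℝ := 3 * ((r₁ : ℝ) + r₂) + 6

/-- `x` enumerates the roots of `G - 1`. -/
structure Rtq (r₁ r₂ N : ℕ) (a : Fa r₁ r₂ → ℤ) (c : Fin r₂ → ℤ) (x : Ro r₁ r₂ → ℂ) : Prop where
  prod : (Gq a c - 1).map (Int.castRingHom ℂ) = ∏ o, (X - C (x o))
  one : ∀ o : Ro r₁ r₂, ∏ o' : Ro r₁ r₂, ‖x o - wr a c o'‖ = 1
  near : ∀ o : Ro r₁ r₂, ‖x o - wr a c o‖ ≤ 1 / (N : ℝ) ^ (r₁ + 2 * r₂ - 1)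
  low : ∀ o o' : Ro r₁ r₂, o ≠ o' → (N : ℝ) ≤ ‖x o - wr a c o'‖
  high : ∀ o o' : Ro r₁ r₂, ‖x o - wr a c o'‖ ≤ bq r₁ r₂ * N
  inj : Function.Injective x
  conj : ∀ o, (starRingEnd ℂ) (x o) = x (st o)

/-- `θ` generates `K` and is a root of `G - 1`, and `e` are the embeddings of `K` in the order of
the roots `x`. -/
structure Fdq (r₁ r₂ N : ℕ) (a : Fa r₁ r₂ → ℤ) (c : Fin r₂ → ℤ) (x : Ro r₁ r₂ → ℂ) (K : Type)
    [Field K] [NumberField K] (θ : K) (e : Ro r₁ r₂ ≃ (K →+* ℂ)) : Prop where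
  par : Par r₁ r₂ N a c
  rts : Rtq r₁ r₂ N a c x
  gen : IntermediateField.adjoin ℚ {θ} = ⊤
  root : aeval θ (Gq a c - 1) = 0
  emb : ∀ o, e o θ = x o
  cj : ∀ o, ComplexEmbedding.conjugate (e o) = e (st o)
  deg : Module.finrank ℚ K = r₁ + 2 * r₂

/-- The product of the distances of `z` to the roots of the factor `k` of `G`. -/
noncomputable def dsq {r₁ r₂ : ℕ} (a : Fa r₁ r₂ → ℤ) (c : Fin r₂ → ℤ) (z : ℂ) (k : Fa r₁ r₂) : ℝ :=
  ∏ o ∈ Finset.univ.filter (fun o : Ro r₁ r₂ => fac o = k), ‖z - wr a c o‖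

/-- The number of free parameters, weighted. -/
def kap (r₁ r₂ : ℕ) : ℕ := if r₁ = 0 then 3 * r₂ - 2 else r₁ + 3 * r₂ - 1

/-- The exponent of the size of the units. -/
def dl (r₂ : ℕ) : ℕ := if r₂ ≤ 1 then 1 else 2

/-! ### The goals -/

/-- (Y1). -/
def LowY : Prop := ∀ r₁ r₂ : ℕ, 3 ≤ r₁ + r₂ → ∀ ε : ℝ, 0 < ε → ∃ X₀ : ℝ, ∀ X : ℝ, X₀ ≤ X →
  X ^ (((r₁ : ℝ) + 2 * r₂ + 1) / 2 - ε) ≤ ((SizeFlds r₁ r₂ X).ncard : ℝ)

/-- (Y2), without Leopoldt's conjecture: few fields of `SizeFlds r₁ r₂ X` contain a field of `S` with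
index at most `2`. -/
def UppY : Prop := ∀ (r₁ r₂ : ℕ) (ε : ℝ), 0 < ε → ∃ C : ℝ, ∀ X : ℝ, 1 ≤ X →
  ∀ S T : Set (IntermediateField ℚ ℂ), S.Finite → T ⊆ SizeFlds r₁ r₂ X →
    (∀ K ∈ T, ∃ E ∈ S, E ≤ K ∧ Module.finrank ℚ K ≤ 2 * Module.finrank ℚ E) →
    (T.ncard : ℝ) ≤ C * S.ncard * X ^ (((r₁ : ℝ) + 2 * r₂) / 2 + ε)

/-! ### Block U: the upper bound -/

/-- CAB (80 lines, no hypotheses). Integers of a number field in a box, uniformly in the field.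

PROOF. For `a` in the set put `Φ a w = (⌊2 re (w.embedding a)⌋, ⌊2 im (w.embedding a)⌋)`, `w` an infinite
place. If `Φ a = Φ a'`, then `|w (a - a')| ^ 2 < 1 / 4 + 1 / 4 < 1` for all `w`, so the absolute value of
the norm of `a - a'` is `< 1` (`InfinitePlace.prod_eq_abs_norm`), the norm is an integer, and `a = a'`.
The first coordinate takes at most `4 Y + 2 ≤ 7 Y` values, the second one as well, and only the value
`0` if `w` is real (`InfinitePlace.isReal_iff`: the embedding is real, so the imaginary part is `0`). So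
the number is at most `∏ w, (7 Y) ^ mult w = (7 Y) ^ [E : ℚ]` (`InfinitePlace.sum_mult_eq`). -/
def CabStmt : Prop := ∀ (E : Type) [Field E] [NumberField E] (Y : ℝ), 1 ≤ Y →
  {a : 𝓞 E | ∀ σ : E →+* ℂ, ‖σ (a : E)‖ ≤ Y}.Finite ∧
  ({a : 𝓞 E | ∀ σ : E →+* ℂ, ‖σ (a : E)‖ ≤ Y}.ncard : ℝ) ≤ (7 * Y) ^ Module.finrank ℚ E

/-- CUB (100 lines; uses CAB). Units of a number field in a box, uniformly in the field.

PROOF. Finite by CAB (the map `b ↦ (b : 𝓞 E)` is injective). `L = log Y ≥ 0`. For `b` in the set and an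
infinite place `w`: `log (w b) ≤ L`, and `∑ mult w * log (w b) = 0` (the norm is `± 1`;
`Units.sum_mult_mul_log`), so `log (w b) ≥ - n L` (`mult w ≥ 1`, `∑ mult ≤ n`). So
`Ψ b w = ⌊log (w b)⌋` takes at most `(n + 1) L + 2 ≤ (n + 2) (1 + L)` values, and `Ψ` at most
`((n + 2) (1 + L)) ^ n` (at most `n` places; the base is `≥ 1`). In a fibre of `Ψ` fix `b₀`; for `b` in
the fibre `|log (w (b / b₀))| < 1`, so all conjugates of the unit `b / b₀` are at most `3`; by CAB there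
are at most `21 ^ n` such `b`. `C = (21 * (n + 2)) ^ n`. -/
def CubStmt : Prop := CabStmt → ∀ n : ℕ, ∃ C : ℝ, 0 ≤ C ∧ ∀ (E : Type) [Field E] [NumberField E],
  Module.finrank ℚ E ≤ n → ∀ Y : ℝ, 1 ≤ Y →
  {b : (𝓞 E)ˣ | ∀ σ : E →+* ℂ, ‖σ ((b : 𝓞 E) : E)‖ ≤ Y}.Finite ∧
  ({b : (𝓞 E)ˣ | ∀ σ : E →+* ℂ, ‖σ ((b : 𝓞 E) : E)‖ ≤ Y}.ncard : ℝ) ≤ C * (1 + Real.log Y) ^ n

/-- The conclusion of CUB. -/
def CubConcl : Prop := ∀ n : ℕ, ∃ C : ℝ, 0 ≤ C ∧ ∀ (E : Type) [Field E] [NumberField E],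
  Module.finrank ℚ E ≤ n → ∀ Y : ℝ, 1 ≤ Y →
  {b : (𝓞 E)ˣ | ∀ σ : E →+* ℂ, ‖σ ((b : 𝓞 E) : E)‖ ≤ Y}.Finite ∧
  ({b : (𝓞 E)ˣ | ∀ σ : E →+* ℂ, ‖σ ((b : 𝓞 E) : E)‖ ≤ Y}.ncard : ℝ) ≤ C * (1 + Real.log Y) ^ n

/-- QPO (80 lines, no hypotheses). The quadratic equation of a unit over a subfield of index `2`.

PROOF. `a` = the trace of `u` (integral, `Algebra.isIntegral_trace`), `b` = the norm
(`Units.map (RingOfIntegers.norm E)`). For `τ : E →+* ℂ` there are exactly two embeddings `σ, σ'` of `K`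
extending `τ`, and `τ a = σ u + σ' u`, `τ b = σ u * σ' u` (`Pool.Agent.LRG.H42.tre`: TreStmt of
`LRG/StmtsE.lean`, and the same with `Algebra.norm_eq_prod_embeddings`). The bounds follow, and
`σ (u ^ 2 - a u + b) = 0`. -/
def QpoStmt : Prop := ∀ (K : Type) [Field K] [NumberField K] (E : IntermediateField ℚ K)
  (u : (𝓞 K)ˣ) (X : ℝ), Module.finrank E K = 2 → (∀ σ : K →+* ℂ, ‖σ ((u : 𝓞 K) : K)‖ ≤ X) →
  ∃ (a : 𝓞 E) (b : (𝓞 E)ˣ), (∀ τ : E →+* ℂ, ‖τ (a : E)‖ ≤ 2 * X) ∧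
    (∀ τ : E →+* ℂ, ‖τ ((b : 𝓞 E) : E)‖ ≤ X ^ 2) ∧
    ((u : 𝓞 K) : K) ^ 2 - algebraMap E K (a : E) * ((u : 𝓞 K) : K)
      + algebraMap E K ((b : 𝓞 E) : E) = 0

/-- RSF (50 lines, no hypotheses). A subfield of `ℂ` inside `K` as a subfield of `K`.

PROOF. `E' = IntermediateField.restrict h` (or `E.comap K.val`); the equivalence
`IntermediateField.restrict_algEquiv`; `Module.finrank_mul_finrank`. -/
def RsfStmt : Prop := ∀ (E K : IntermediateField ℚ ℂ) [NumberField K], E ≤ K →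
  ∃ (E' : IntermediateField ℚ K) (f : E' ≃+* E), (∀ y : E', ((f y : E) : ℂ) = (((y : K) : ℂ))) ∧
    Module.finrank ℚ E * Module.finrank E' K = Module.finrank ℚ K ∧
    ∀ z : K, z ∈ E' ↔ (z : ℂ) ∈ E

/-- QOV (120 lines; uses CAB CubConcl QPO RSF). The quadratic extensions of a given field.

PROOF. Let `K` be in `Over E X`, `u` the unit, `z = (u : ℂ)`. By RSF and QPO, transported to `E` by `f`,
there are `a : 𝓞 E` and `b : (𝓞 E)ˣ` with all conjugates at most `2 X` and `X ^ 2` and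
`z ^ 2 - a z + b = 0` in `ℂ`. `K` is the field generated by `E` and `z` (`z ∉ E`, the index `2` is a prime),
and it is determined by `(a, b)`: the other root of the polynomial is `a - z`, which generates the same
field. So the number is at most the number of the pairs, at most
`(7 * (2 * X)) ^ m * C₁ * (1 + 2 log X) ^ m`, `C₁` the constant of CubConcl for `m`, and
`(1 + 2 log X) ^ m ≤ C₂ X ^ ε` for `X ≥ 1`. -/
def QovStmt : Prop := CabStmt → CubConcl → QpoStmt → RsfStmt → ∀ (m : ℕ) (ε : ℝ), 0 < ε →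
  ∃ C : ℝ, 0 ≤ C ∧ ∀ E : IntermediateField ℚ ℂ, Module.finrank ℚ E = m → ∀ X : ℝ, 1 ≤ X →
    (Over E X).Finite ∧ ((Over E X).ncard : ℝ) ≤ C * X ^ ((m : ℝ) + ε)

/-- The conclusion of QOV. -/
def QovConcl : Prop := ∀ (m : ℕ) (ε : ℝ), 0 < ε →
  ∃ C : ℝ, 0 ≤ C ∧ ∀ E : IntermediateField ℚ ℂ, Module.finrank ℚ E = m → ∀ X : ℝ, 1 ≤ X →
    (Over E X).Finite ∧ ((Over E X).ncard : ℝ) ≤ C * X ^ ((m : ℝ) + ε)

/-- USY (100 lines; uses QovConcl RSF). The upper bound.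

PROOF. `n = r₁ + 2 r₂`; `finrank ℚ K = n` for `K` in `SizeFlds r₁ r₂ X` (signature,
`InfinitePlace.card_add_two_mul_card_eq_rank`). Let `K` be in `T`, `E` in `S`, `E ≤ K`,
`n ≤ 2 [E : ℚ]`. `[E : ℚ]` divides `n` (RSF), so it is `n` or `n / 2` (`n > 0`). If it is `n`, `K = E ∈ S`
(`IntermediateField.eq_of_le_of_finrank_eq`). If `2 [E : ℚ] = n`: one of the units `u i` of `SizeFlds`
is not in `E`: otherwise the subfield `E'` of `K` of RSF (`E' ≠ ⊤`) would contain `Units.rank K`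
independent units (`Pool.Agent.LRN.H98.exists_unit`, `indep_sub`, `indep_le_rank` of
`Helper98_LRN/FFX.lean`), so `Units.rank K ≤ Units.rank E'`, against the definition of `SizeFlds`. So
`K ∈ Over E X`. So `T ⊆ S ∪ ⋃ E ∈ S with 2 [E : ℚ] = n, Over E X`, and by QovConcl
(`m = n / 2`) the number is at most `#S + #S * C X ^ (n / 2 + ε) ≤ (C + 1) #S X ^ (n / 2 + ε)`. -/
def UsyStmt : Prop := QovConcl → RsfStmt → UppY

/-- DEG (40 lines, no hypotheses). In the listed degrees there are no subfields of index at least `3`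
and unit rank at least `2`.

PROOF. `Units.rank E + 1 ≤ finrank ℚ E` (`Pool.Agent.LRN.H74.rank_le` in `Helper74_LRN/DIR.lean`), so
`finrank ℚ E ≥ 3`, and `n = finrank ℚ E * finrank E K` with both factors at least `3`: `n ≥ 9`, `n` is not
a prime, and not twice a prime `q` (`q` divides one factor, the other one divides `2`). -/
def DegStmt : Prop := ∀ (K : Type) [Field K] [NumberField K] (E : IntermediateField ℚ K),
  (Module.finrank ℚ K ≤ 8 ∨ (Module.finrank ℚ K).Prime ∨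
    ∃ q : ℕ, q.Prime ∧ Module.finrank ℚ K = 2 * q) →
  3 ≤ Module.finrank E K → ¬ 2 ≤ Units.rank E

/-- BDY (40 lines; uses RSF). A source in a field of `BadY p` has index at most `2`.

PROOF. `E'` of RSF: `¬ LeopoldtAt E' p` (`Pool.Agent.LRN.H74.lhm` for `E →+* E'`,
`Helper74_LRN/MCX.lean`), `Units.rank E' ≥ 2` by `Pool.Agent.LRN.H98.rk1`
(`Helper98_LRN/RK1.lean`); so `finrank E' K ≤ 2` by the definition of `BadY` (it does not depend on the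
proof of `NumberField K`), and `finrank ℚ K = finrank ℚ E * finrank E' K`. -/
def BdyStmt : Prop := RsfStmt → ∀ (p : ℕ) [Fact p.Prime] (E K : IntermediateField ℚ ℂ),
  K ∈ BadY p → E ∈ Bad p → E ≤ K → Module.finrank ℚ K ≤ 2 * Module.finrank ℚ E

/-! ### Block L: the lower bound -/

/-- FCQ (90 lines, no hypotheses). The factors of `G`. Adaptation of FCT (`Helper67_LRG/FCT.lean`).

PROOF. `X ^ 2 - 2 a X + a ^ 2 + c = (X - a - i s) (X - a + i s)`, `s = √c`, `s ^ 2 = c` as `c ≥ 0`. The roots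
with `fac o = Sum.inl i` are `{Sum.inl i}`, those with `fac o = Sum.inr j` are
`{Sum.inr (j, true), Sum.inr (j, false)}`. `G`: product over the factors (`Finset.prod_fiberwise`),
degree `∑ k, mu k = r₁ + 2 r₂`. -/
def FcqStmt : Prop := ∀ (r₁ r₂ : ℕ) (a : Fa r₁ r₂ → ℤ) (c : Fin r₂ → ℤ), (∀ j, 0 ≤ c j) →
  (∀ k : Fa r₁ r₂, (gq a c k).Monic ∧ (gq a c k).natDegree = mu k ∧
    (gq a c k).map (Int.castRingHom ℂ) =
      ∏ o ∈ Finset.univ.filter (fun o : Ro r₁ r₂ => fac o = k), (X - C (wr a c o))) ∧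
  (Gq a c).Monic ∧ (Gq a c).natDegree = r₁ + 2 * r₂ ∧
  (Gq a c).map (Int.castRingHom ℂ) = ∏ o : Ro r₁ r₂, (X - C (wr a c o))

/-- SPQ (90 lines, no hypotheses). Spacing and size of the roots of `G`. Adaptation of SPC
(`Helper21_LRG/SPC.lean`).

PROOF. Real parts: `a k`, `k = fac o`. If `k ≠ k'`, `ex k ≠ ex k'` (`ex` is injective), say `ex k < ex k'`:
`a k' - a k ≥ 3 (ex k + 1) N - (3 ex k + 1) N = 2 N`. If `fac o = fac o'`, `o ≠ o'`, the imaginary parts are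
`± √c` with `√c ≥ N`. Upper bound: real parts in `[0, (3 (r₁ + r₂ - 1) + 1) N]`, imaginary parts in
`[- 2 N, 2 N]`. Conjugation: `√c` is real. -/
def SpqStmt : Prop := ∀ (r₁ r₂ N : ℕ) (a : Fa r₁ r₂ → ℤ) (c : Fin r₂ → ℤ), Par r₁ r₂ N a c →
  (∀ o o' : Ro r₁ r₂, o ≠ o' → 2 * (N : ℝ) ≤ ‖wr a c o - wr a c o'‖) ∧
  (∀ o o' : Ro r₁ r₂, ‖wr a c o - wr a c o'‖ ≤ (3 * ((r₁ : ℝ) + r₂) + 4) * N) ∧
  ∀ o : Ro r₁ r₂, (starRingEnd ℂ) (wr a c o) = wr a c (st o) ∧ st (st o) = o ∧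
    fac (st o) = fac o

/-- IRQ (70 lines; uses FCQ SPQ). `G - 1` is irreducible. Adaptation of IRE
(`Helper29_LRG/IRE.lean`).

PROOF. `Pool.Agent.Helper65_Dens.irreducible_of_pairs` with `w = wr a c`. For `o = inl i` the number `w` is
an integer, so `u(w)`, `v(w)` are integers with product `-1`. For `o = inr (j, b)`:
`Pool.Agent.Helper65_Dens.quadratic_unit` for `X ^ 2 - 2 a X + a ^ 2 + c` with `4 c ≥ 4 N ^ 2 ≥ 5`. -/
def IrqStmt : Prop := FcqStmt → SpqStmt → ∀ (r₁ r₂ N : ℕ) (a : Fa r₁ r₂ → ℤ) (c : Fin r₂ → ℤ),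
  Par r₁ r₂ N a c → 2 ≤ N → 0 < r₁ + r₂ → Irreducible ((Gq a c - 1).map (Int.castRingHom ℚ))

/-- RTQ (120 lines; uses FCQ SPQ). The roots of `G - 1`. Adaptation of ROO
(`Helper62_LRG/ROO.lean`).

PROOF. `Pool.Agent.Helper65_Dens.exists_close_roots` for `f = (G - 1).map`, `w = wr a c` (`f(w) = -1`,
distances at least `2 N ≥ 3`) gives `x` with `prod` and `|x o - w o| ≤ 1`. `low`:
`|x o - w o'| ≥ 2 N - 1 ≥ N`. `high`: `≤ 1 + (3 (r₁ + r₂) + 4) N ≤ bq N`. `one`: `G(x o) = 1`. `near`: by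
`one` and `low` (`∏ o' ≠ o` has `n - 1` factors `≥ N > 0`). `inj`: `x o = x o'`, `o ≠ o'` contradicts
`|x o' - w o'| ≤ 1 < N ≤ |x o - w o'|`. `conj`: the conjugate of `x o` is a root, so it is `x o'`; its
distance to `w (st o)` is at most `1`, so `o' = st o` by `low`. -/
def RtqStmt : Prop := FcqStmt → SpqStmt → ∀ (r₁ r₂ N : ℕ) (a : Fa r₁ r₂ → ℤ) (c : Fin r₂ → ℤ),
  Par r₁ r₂ N a c → 2 ≤ N → 0 < r₁ + r₂ → ∃ x, Rtq r₁ r₂ N a c x

/-- EMQ (90 lines; uses FCQ). The embeddings. Adaptation of EMB (`Helper21_LRG/EMB.lean`).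

PROOF. `minpoly ℚ θ = (G - 1).map` (irreducible, monic, root), so `finrank ℚ K = n` (FCQ for the degree)
is the number of embeddings (`Embeddings.card`). For every embedding `σ` the number `σ θ` is a root of
`G - 1`, so it is `x o` for exactly one `o`; `σ` is determined by `σ θ` (`gen`), so `σ ↦ o` is injective,
hence bijective (same cardinality `n`); `e` is the inverse. `cj`: both sides have the same value
`x (st o)` at `θ`. -/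
def EmqStmt : Prop := FcqStmt → ∀ (r₁ r₂ N : ℕ) (a : Fa r₁ r₂ → ℤ) (c : Fin r₂ → ℤ)
  (x : Ro r₁ r₂ → ℂ), Par r₁ r₂ N a c → Rtq r₁ r₂ N a c x →
  Irreducible ((Gq a c - 1).map (Int.castRingHom ℚ)) →
  ∀ (K : Type) [Field K] [NumberField K] (θ : K), IntermediateField.adjoin ℚ {θ} = ⊤ →
    aeval θ (Gq a c - 1) = 0 → ∃ e : Ro r₁ r₂ ≃ (K →+* ℂ), Fdq r₁ r₂ N a c x K θ e

/-- PLQ (90 lines, no hypotheses). The signature. Adaptation of PLA (`Helper25_LRG/PLA.lean`).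

PROOF. `v k = InfinitePlace.mk (e (rep k))`. `mk φ = mk ψ` iff `φ = ψ` or `conjugate φ = ψ`
(`InfinitePlace.mk_eq_iff`), so with `cj`: `v k = v k'` implies `rep k' ∈ {rep k, st (rep k)}`, so
`k = k'`. Surjective: every place is `mk (e o)`, and `o = rep k` or `o = st (rep k)` with `k = fac o`.
`v k` is real iff `st (rep k) = rep k` iff `k = inl i`. Count. `Units.rank K` is the number of infinite
places minus `1` (by definition). -/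
def PlqStmt : Prop := ∀ (r₁ r₂ N : ℕ) (a : Fa r₁ r₂ → ℤ) (c : Fin r₂ → ℤ) (x : Ro r₁ r₂ → ℂ)
  (K : Type) [Field K] [NumberField K] (θ : K) (e : Ro r₁ r₂ ≃ (K →+* ℂ)),
  Fdq r₁ r₂ N a c x K θ e →
  InfinitePlace.nrRealPlaces K = r₁ ∧ InfinitePlace.nrComplexPlaces K = r₂ ∧
    Units.rank K = r₁ + r₂ - 1

/-- UNQ (70 lines; uses FCQ). The units. Adaptation of UNT (`Helper10_LRG/UNT.lean`).

PROOF. `θ` is integral (root of the monic polynomial `G - 1`, FCQ), so `g_k(θ)` is integral, and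
`∏ k, g_k(θ) = G(θ) = 1`, so they are units of `𝓞 K` (`Units.mkOfMulEqOne` with the product of the
others). `e o (g_k(θ)) = g_k(x o) = ∏ (x o - w)` over the roots of `g_k`. -/
def UnqStmt : Prop := FcqStmt → ∀ (r₁ r₂ N : ℕ) (a : Fa r₁ r₂ → ℤ) (c : Fin r₂ → ℤ)
  (x : Ro r₁ r₂ → ℂ) (K : Type) [Field K] [NumberField K] (θ : K) (e : Ro r₁ r₂ ≃ (K →+* ℂ)),
  Fdq r₁ r₂ N a c x K θ e →
  ∃ u : Fa r₁ r₂ → (𝓞 K)ˣ, (∀ k, ((u k : 𝓞 K) : K) = aeval θ (gq a c k)) ∧ ∏ k, u k = 1 ∧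
    ∀ (o : Ro r₁ r₂) (k : Fa r₁ r₂), ‖e o ((u k : 𝓞 K) : K)‖ = dsq a c (x o) k

/-- The conclusion of UNQ. -/
def UnqConcl : Prop := ∀ (r₁ r₂ N : ℕ) (a : Fa r₁ r₂ → ℤ) (c : Fin r₂ → ℤ)
  (x : Ro r₁ r₂ → ℂ) (K : Type) [Field K] [NumberField K] (θ : K) (e : Ro r₁ r₂ ≃ (K →+* ℂ)),
  Fdq r₁ r₂ N a c x K θ e →
  ∃ u : Fa r₁ r₂ → (𝓞 K)ˣ, (∀ k, ((u k : 𝓞 K) : K) = aeval θ (gq a c k)) ∧ ∏ k, u k = 1 ∧
    ∀ (o : Ro r₁ r₂) (k : Fa r₁ r₂), ‖e o ((u k : 𝓞 K) : K)‖ = dsq a c (x o) k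

/-- SZQ (70 lines, no hypotheses). The size of the units.

PROOF. There are `mu k` roots with `fac o = k` (one or two), `N ≥ 2`. Each factor of `dsq` is at most
`bq N` (`high`), each factor with `o' ≠ o` is at least `N > 1` (`low`). If `fac o ≠ k` all factors have
`o' ≠ o`, and there is at least one. No factor is zero by `one`. -/
def SzqStmt : Prop := ∀ (r₁ r₂ N : ℕ) (a : Fa r₁ r₂ → ℤ) (c : Fin r₂ → ℤ) (x : Ro r₁ r₂ → ℂ),
  Rtq r₁ r₂ N a c x → 2 ≤ N →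
  (∀ (o : Ro r₁ r₂) (k : Fa r₁ r₂), 0 < dsq a c (x o) k) ∧
  (∀ (o : Ro r₁ r₂) (k : Fa r₁ r₂), fac o ≠ k → 1 < dsq a c (x o) k) ∧
  ∀ (o : Ro r₁ r₂) (k : Fa r₁ r₂), dsq a c (x o) k ≤ (bq r₁ r₂ * N) ^ mu k

/-- INQ (80 lines; uses SZQ). All units but one are independent.

PROOF. `A o k = log (dsq a c (x o) k)`. By `∏ k, u k = 1` the sum `∑ k, A o k = 0`; by
`∏ k, u k ^ m k = 1` (apply `e o` and `log ‖ ‖`) `∑ k, m k * A o k = 0`. Choose `k₁` with `m k₁` maximal and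
`o = rep k₁` (`fac (rep k₁) = k₁`). Then `∑ k, (m k₁ - m k) * A o k = 0` with all terms `≥ 0`
(`A o k > 0` for `k ≠ k₁`), so `m k = m k₁` for all `k`; with `m k₀ = 0` all are zero. -/
def InqStmt : Prop := SzqStmt → ∀ (r₁ r₂ N : ℕ) (a : Fa r₁ r₂ → ℤ) (c : Fin r₂ → ℤ)
  (x : Ro r₁ r₂ → ℂ) (K : Type) [Field K] [NumberField K] (e : Ro r₁ r₂ ≃ (K →+* ℂ))
  (u : Fa r₁ r₂ → (𝓞 K)ˣ), Rtq r₁ r₂ N a c x → 2 ≤ N → ∏ k, u k = 1 →
  (∀ (o : Ro r₁ r₂) (k : Fa r₁ r₂), ‖e o ((u k : 𝓞 K) : K)‖ = dsq a c (x o) k) →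
  ∀ (k₀ : Fa r₁ r₂) (m : Fa r₁ r₂ → ℤ), m k₀ = 0 → ∏ k, u k ^ m k = 1 → m = 0

/-- NCQ (150 lines; uses SPQ PLQ). The fields are not CM.

PROOF. Let `E ≠ ⊤`, so `2 finrank ℚ E ≤ n = r₁ + 2 r₂`. `Units.rank E + 1 ≤ finrank ℚ E`
(`Pool.Agent.LRN.H74.rank_le`, `Helper74_LRN/DIR.lean`) and `Units.rank K + 1 = r₁ + r₂` (PLQ). If
`r₁ > 0`, `2 (Units.rank E + 1) ≤ r₁ + 2 r₂ < 2 (r₁ + r₂)`. Let `r₁ = 0` and suppose
`Units.rank E ≥ Units.rank K`. Then `Units.rank E + 1 = finrank ℚ E = r₂`, so `E` has no complex place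
(`InfinitePlace.card_add_two_mul_card_eq_rank`; `Units.rank E + 1` is the number of places) and
`finrank E K = 2`. So every `τ : E →+* ℂ` is real, and the set `S τ` of the embeddings of `K` over `τ`
has `2` elements and is stable under conjugation; as `st o ≠ o` for all `o` (`r₁ = 0`),
`S τ = {e o, e (st o)}`. By `Pool.Agent.LRG.H42.tre` (TreStmt) the trace `s` of `θ` has
`τ s = x o + x (st o) = x o + conj (x o)`, so `‖τ s - 2 a k‖ ≤ 2 / N ^ (n - 1)`, `k = fac o`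
(`near`, SPQ for the conjugation; `wr a c o + wr a c (st o) = 2 a k`). Different `τ` have different `k`
(`k` determines `{o, st o}`). Fix `τ₁`, `k₁` and `y = s - 2 a k₁`, an integral element of `E`:
`‖τ₁ y‖ ≤ 2 / N ^ (n - 1)`, `‖τ y‖ ≤ 2 / N ^ (n - 1) + 2 |a k - a k₁| ≤ 7 r₂ N` for the other `r₂ - 1`
embeddings, so the product is at most `2 (7 r₂ N) ^ (r₂ - 1) / N ^ (2 r₂ - 1) < 1` for `N ≥ N₀`. By
`Pool.Agent.LRG.H41.niz` (NizStmt) `y = 0`. For `τ₂ ≠ τ₁` (`r₂ ≥ 3`)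
`|2 a k₁ - 2 a k₂| = ‖τ₂ s - 2 a k₂‖ ≤ 2 / N ^ (n - 1) < 1`, but `|a k₁ - a k₂| ≥ 2 N` (`Par`). -/
def NcqStmt : Prop := SpqStmt → PlqStmt → ∀ r₁ r₂ : ℕ, 3 ≤ r₁ + r₂ → ∃ N₀ : ℕ, ∀ N : ℕ, N₀ ≤ N →
  ∀ (a : Fa r₁ r₂ → ℤ) (c : Fin r₂ → ℤ) (x : Ro r₁ r₂ → ℂ) (K : Type) [Field K] [NumberField K]
    (θ : K) (e : Ro r₁ r₂ ≃ (K →+* ℂ)), Fdq r₁ r₂ N a c x K θ e →
    ∀ E : IntermediateField ℚ K, E ≠ ⊤ → Units.rank E < Units.rank K

/-- SFQ (90 lines; uses PLQ UnqConcl SZQ INQ NCQ). The fields are in `SizeFlds`.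

PROOF. `k₀` = the quadratic factor if `r₂ = 1`, any factor otherwise. The family `u k`, `k ≠ k₀`, indexed by
`Fin (Units.rank K)` (`Units.rank K = r₁ + r₂ - 1` is the number of the `k ≠ k₀`), is independent by INQ
(extend the exponents by `0` at `k₀`), and all conjugates are at most `(bq N) ^ mu k`, which is
`≤ (bq N) ^ dl r₂`: if `r₂ ≤ 1`, all `k ≠ k₀` are linear, `mu k = 1`; otherwise `mu k ≤ 2`, `bq N ≥ 1`.
Every embedding of `K` is an `e o`. `N₀ ≥ 2` and the one of NCQ. -/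
def SfqStmt : Prop := PlqStmt → UnqConcl → SzqStmt → InqStmt → NcqStmt → SpqStmt →
  ∀ r₁ r₂ : ℕ, 3 ≤ r₁ + r₂ → ∃ N₀ : ℕ, ∀ N : ℕ, N₀ ≤ N →
  ∀ (a : Fa r₁ r₂ → ℤ) (c : Fin r₂ → ℤ) (x : Ro r₁ r₂ → ℂ) (K : IntermediateField ℚ ℂ)
    [NumberField K] (θ : K) (e : Ro r₁ r₂ ≃ (K →+* ℂ)), Fdq r₁ r₂ N a c x K θ e →
    K ∈ SizeFlds r₁ r₂ ((bq r₁ r₂ * N) ^ dl r₂)

/-- The conclusion of SFQ. -/
def SfqConcl : Prop := ∀ r₁ r₂ : ℕ, 3 ≤ r₁ + r₂ → ∃ N₀ : ℕ, ∀ N : ℕ, N₀ ≤ N →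
  ∀ (a : Fa r₁ r₂ → ℤ) (c : Fin r₂ → ℤ) (x : Ro r₁ r₂ → ℂ) (K : IntermediateField ℚ ℂ)
    [NumberField K] (θ : K) (e : Ro r₁ r₂ ≃ (K →+* ℂ)), Fdq r₁ r₂ N a c x K θ e →
    K ∈ SizeFlds r₁ r₂ ((bq r₁ r₂ * N) ^ dl r₂)

/-- FFQ (90 lines; uses FCQ SPQ IRQ RTQ EMQ). The fields inside `ℂ`. Adaptation of FFE
(`Helper40_LRG/FFE.lean`).

PROOF. `x` from RTQ, `o₀` fixed, `K = IntermediateField.adjoin ℚ {x o₀}`, `θ` its generator
(`IntermediateField.AdjoinSimple.gen`), `aeval θ (G - 1) = 0` since `x o₀` is a root of `G - 1` (`prod`);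
`K` is finite over `ℚ`, so a number field; EMQ. -/
def FfqStmt : Prop := FcqStmt → SpqStmt → IrqStmt → RtqStmt → EmqStmt →
  ∀ (r₁ r₂ N : ℕ) (a : Fa r₁ r₂ → ℤ) (c : Fin r₂ → ℤ), Par r₁ r₂ N a c → 2 ≤ N → 0 < r₁ + r₂ →
  ∃ (K : IntermediateField ℚ ℂ) (_ : NumberField K) (x : Ro r₁ r₂ → ℂ) (θ : K)
    (e : Ro r₁ r₂ ≃ (K →+* ℂ)), Fdq r₁ r₂ N a c x K θ e

/-- The conclusion of FFQ. -/
def FfqConcl : Prop :=
  ∀ (r₁ r₂ N : ℕ) (a : Fa r₁ r₂ → ℤ) (c : Fin r₂ → ℤ), Par r₁ r₂ N a c → 2 ≤ N → 0 < r₁ + r₂ →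
  ∃ (K : IntermediateField ℚ ℂ) (_ : NumberField K) (x : Ro r₁ r₂ → ℂ) (θ : K)
    (e : Ro r₁ r₂ ≃ (K →+* ℂ)), Fdq r₁ r₂ N a c x K θ e

/-- THQ (80 lines, no hypotheses). `θ` is determined by the first units.

PROOF. `r₁ > 0`: for `k = inl 0` (`ex k = 0`, `a k = a' k = 0`) `g_k(θ) = θ`, so `θ = θ'`. `r₁ = 0` (so
`r₂ ≥ 3`): for `k = inr 0`, `inr 1` (`a k = 0`, `3 N` for both) `g_0(θ) = θ ^ 2 + c 0`,
`g_1(θ) = θ ^ 2 - 6 N θ + 9 N ^ 2 + c 1`; the differences `g_0 - g_1` agree, so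
`6 N (θ - θ') = (c 1 - c 0) - (c' 1 - c' 0)` is an integer and `θ' = θ + q`, `q ∈ ℚ`. Then
`θ ^ 2 + c 0 = (θ + q) ^ 2 + c' 0`, so `2 q θ ∈ ℚ`; if `q ≠ 0` then `θ ∈ ℚ`, but
`finrank ℚ K = n ≥ 3` and `θ` generates `K`. -/
def ThqStmt : Prop := ∀ (r₁ r₂ N : ℕ) (a a' : Fa r₁ r₂ → ℤ) (c c' : Fin r₂ → ℤ)
  (x x' : Ro r₁ r₂ → ℂ) (K : Type) [Field K] [NumberField K] (θ θ' : K)
  (e e' : Ro r₁ r₂ ≃ (K →+* ℂ)), 1 ≤ N → 3 ≤ r₁ + r₂ → Fdq r₁ r₂ N a c x K θ e →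
  Fdq r₁ r₂ N a' c' x' K θ' e' → Nrm r₁ r₂ N a → Nrm r₁ r₂ N a' →
  (∀ k, ex k ≤ 1 → aeval θ (gq a c k) = aeval θ' (gq a' c' k)) → θ = θ'

/-- PDQ (90 lines; uses FCQ). The parameters are determined by `θ`.

PROOF. `G - 1` and `G' - 1` are monic of degree `n = finrank ℚ K = natDegree (minpoly ℚ θ)` (`gen`) with the
root `θ`, so after mapping to `ℚ` both are `minpoly ℚ θ`, and `G = G'`. By FCQ
`∏ o, (X - C (wr a c o)) = ∏ o, (X - C (wr a' c' o))`. For every `k` and a root `o` with `fac o = k`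
there is `o'` with `wr a c o = wr a' c' o'`; real parts: `a k = a' (fac o')`, and by `Par`
`3 ex k N ≤ (3 ex k' + 1) N`, `3 ex k' N ≤ (3 ex k + 1) N` for `k' = fac o'`, so `ex k = ex k'` (`N ≥ 1`) and
`k = k'`, `a k = a' k`. Imaginary parts for `k = inr j`, `o = inr (j, true)`: `√(c j) = ± √(c' j)`, both are
positive, so `c j = c' j`. -/
def PdqStmt : Prop := FcqStmt → ∀ (r₁ r₂ N : ℕ) (a a' : Fa r₁ r₂ → ℤ) (c c' : Fin r₂ → ℤ)
  (x x' : Ro r₁ r₂ → ℂ) (K : Type) [Field K] [NumberField K] (θ : K)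
  (e e' : Ro r₁ r₂ ≃ (K →+* ℂ)), 1 ≤ N → 0 < r₁ + r₂ → Fdq r₁ r₂ N a c x K θ e →
  Fdq r₁ r₂ N a' c' x' K θ e' → a = a' ∧ c = c'

/-- CPQ (90 lines, no hypotheses). The number of normalised parameters.

PROOF. `S = piFinset A ×ˢ piFinset (Icc (N ^ 2) (4 N ^ 2))`, `A k = {3 ex k N}` if `ex k = 0`, or if
`r₁ = 0` and `ex k = 1`, and `A k = Icc (3 ex k N) ((3 ex k + 1) N)` otherwise, with `N + 1` elements.
The second interval has `3 N ^ 2 + 1 ≥ N ^ 2` elements. If `r₁ > 0`, all `k` except `inl 0` are free: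
`N ^ (r₁ + r₂ - 1) N ^ (2 r₂)`. If `r₁ = 0`, all except `inr 0`, `inr 1` (`r₂ ≥ 3`):
`N ^ (r₂ - 2) N ^ (2 r₂)`. -/
def CpqStmt : Prop := ∀ r₁ r₂ N : ℕ, 3 ≤ r₁ + r₂ → 1 ≤ N →
  ∃ S : Finset ((Fa r₁ r₂ → ℤ) × (Fin r₂ → ℤ)), N ^ kap r₁ r₂ ≤ S.card ∧
    ∀ s ∈ S, Par r₁ r₂ N s.1 s.2 ∧ Nrm r₁ r₂ N s.1

/-- CFQ (150 lines, strong; uses FfqConcl SfqConcl UnqConcl SZQ THQ PDQ FCQ CPQ CubConcl). The number
of fields.

PROOF. `n = r₁ + 2 r₂`, `C` the constant of CubConcl for `n`, `N₀ ≥ 2` and the one of SfqConcl. For `s ∈ S`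
(CPQ) choose by FfqConcl a field `K s` with `x, θ, e` and by UnqConcl units `u k`; `K s ∈ SizeFlds`
(SfqConcl). `SizeFlds` is finite (`Pool.Agent.LRN.H98.ffx`). It is enough
(`Finset.card_le_mul_card_image_of_maps_to`) that for every `K` the number of the `s` with `K s = K` is
at most `M ^ 2`, `M = C (1 + log ((bq N) ^ 2)) ^ n`. Map such an `s` to `(u k₁, u k₂)`, where
`k₁, k₂` are the factors with `ex k₁ = 0`, `ex k₂ = 1` (`ex` is a bijection onto `{0, ..., r₁ + r₂ - 1}`);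
their conjugates are at most `(bq N) ^ 2` (SZQ, every embedding is an `e o`; `bq N ≥ 1`), so the pairs are
in a set of at most `M ^ 2` elements (CubConcl), and the map is injective by THQ and PDQ. (It is
convenient to state the fibre bound for a fixed `K` with a function `s ↦ (x, θ, e, u)` chosen on the
set of all `s` for which a `Fdq` over this `K` exists.) -/
def CfqStmt : Prop := FfqConcl → SfqConcl → UnqConcl → SzqStmt → ThqStmt → PdqStmt → FcqStmt →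
  CpqStmt → CubConcl → ∀ r₁ r₂ : ℕ, 3 ≤ r₁ + r₂ → ∃ (C : ℝ) (N₀ : ℕ), ∀ N : ℕ, N₀ ≤ N →
    (N : ℝ) ^ kap r₁ r₂ ≤ ((SizeFlds r₁ r₂ ((bq r₁ r₂ * N) ^ dl r₂)).ncard : ℝ) *
      (C * (1 + Real.log ((bq r₁ r₂ * N) ^ 2)) ^ (r₁ + 2 * r₂)) ^ 2

/-- The conclusion of CFQ. -/
def CfqConcl : Prop := ∀ r₁ r₂ : ℕ, 3 ≤ r₁ + r₂ → ∃ (C : ℝ) (N₀ : ℕ), ∀ N : ℕ, N₀ ≤ N →
    (N : ℝ) ^ kap r₁ r₂ ≤ ((SizeFlds r₁ r₂ ((bq r₁ r₂ * N) ^ dl r₂)).ncard : ℝ) *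
      (C * (1 + Real.log ((bq r₁ r₂ * N) ^ 2)) ^ (r₁ + 2 * r₂)) ^ 2

/-- LWQ (120 lines; uses CfqConcl). The lower bound (Y1).

PROOF. `δ = dl r₂`, `κ = kap r₁ r₂`: `2 κ ≥ δ (n + 1)` (cases `r₂ = 0`: `κ = n - 1`, `n ≥ 3`; `r₂ = 1`: `κ = n`;
`r₂ ≥ 2`, `r₁ > 0`: `κ = n + r₂ - 1`; `r₁ = 0`, `r₂ ≥ 3`: `κ = n + r₂ - 2`). For large `X` let
`N = ⌊X ^ (1 / δ) / bq⌋₊`: then `(bq N) ^ δ ≤ X`, so `SizeFlds r₁ r₂ ((bq N) ^ δ) ⊆ SizeFlds r₁ r₂ X`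
(finite by `Pool.Agent.LRN.H98.ffx`), and `N ≥ X ^ (1 / δ) / (2 bq)`, so
`N ^ κ ≥ c X ^ (κ / δ) ≥ c X ^ ((n + 1) / 2)`. The factor `(C (1 + log ((bq N) ^ 2)) ^ n) ^ 2` is at most
`C' (1 + log X) ^ (2 n) ≤ X ^ (ε / 2)` for large `X` (replace `C` by `|C| + 1`), and `c X ^ (ε / 2) ≥ 1`. -/
def LwqStmt : Prop := CfqConcl → LowY

end Pool.Agent.LRY
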